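import Pool.Agent.H90.RG.Targets

/-! Row G_GLU of the board reg (MP_2697e3_an): gluing of the local representatives. -/

namespace Pool.Agent.H21.RG

open MeasureTheory Metric Set Filter Topology Pool.Agent.H87.SN Pool.Agent.H90.RG
open scoped ContDiff RealInnerProductSpace ENNReal

noncomputable section

theorem Reg_sub {n m : ℕ} (u : E n → E m) (x : E n) (r : ℝ) (hrs : ball x r ⊆ ball 0 2)
    (v : E n → E m) (hv : ContDiffOn ℝ ∞ v (ball x r))
    (hve : ∀ᵐ y ∂(volume.restrict (ball x r)), v y = u y) : ball x r ⊆ Reg u := by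
  intro y hy
  have h1 : 0 < r - dist y x := sub_pos.2 hy
  have h2 : ball y (r - dist y x) ⊆ ball x r := by
    apply ball_subset_ball'
    linarith
  exact ⟨r - dist y x, h1, h2.trans hrs, v, hv.mono h2,
    ae_restrict_of_ae_restrict_of_subset h2 hve⟩

theorem pf_GLU : T_GLU := by
  classical
  intro n m u
  have hopen : IsOpen (Reg u) := by
    rw [Metric.isOpen_iff]
    rintro x ⟨r, hr, hrs, v, hv, hve⟩
    exact ⟨r, hr, Reg_sub u x r hrs v hv hve⟩
  refine ⟨hopen, ?_, ?_⟩
  · rintro x ⟨r, hr, hrs, -⟩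
    exact hrs (mem_ball_self hr)
  choose r hr hrs v hv hve using fun x : Reg u => x.2
  set u' : E n → E m := fun z => if h : z ∈ Reg u then v ⟨z, h⟩ z else u z with hu'
  have hcl : ∀ (x : Reg u) (z : E n), z ∈ ball x.1 (r x) → u' z = v x z := by
    intro x z hz
    have hz' : z ∈ Reg u := Reg_sub u x.1 (r x) (hrs x) (v x) (hv x) (hve x) hz
    have h1 : u' z = v ⟨z, hz'⟩ z := by
      rw [hu']
      exact dif_pos hz'
    rw [h1]
    set W : Set (E n) := ball x.1 (r x) ∩ ball z (r ⟨z, hz'⟩) with hW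
    have hWo : IsOpen W := isOpen_ball.inter isOpen_ball
    have h2 : v ⟨z, hz'⟩ =ᵐ[volume.restrict W] v x := by
      have h3 := ae_restrict_of_ae_restrict_of_subset (inter_subset_left : W ⊆ _) (hve x)
      have h4 := ae_restrict_of_ae_restrict_of_subset (inter_subset_right : W ⊆ _) (hve ⟨z, hz'⟩)
      filter_upwards [h3, h4] with y h5 h6
      rw [h5, h6]
    exact Measure.eqOn_open_of_ae_eq h2 hWo ((hv _).continuousOn.mono inter_subset_right)
      ((hv x).continuousOn.mono inter_subset_left) ⟨hz, mem_ball_self (hr _)⟩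
  refine ⟨u', ?_, ?_⟩
  · intro x hx
    have h1 : ContDiffAt ℝ ∞ (v ⟨x, hx⟩) x :=
      (hv ⟨x, hx⟩).contDiffAt (ball_mem_nhds x (hr ⟨x, hx⟩))
    refine (h1.congr_of_eventuallyEq ?_).contDiffWithinAt
    filter_upwards [ball_mem_nhds x (hr ⟨x, hx⟩)] with z hz
    exact hcl ⟨x, hx⟩ z hz
  · obtain ⟨T, hT, hTe⟩ := TopologicalSpace.isOpen_iUnion_countable
      (fun x : Reg u => ball x.1 (r x)) (fun _ => isOpen_ball)
    have h1 : ∀ᵐ z ∂(volume : Measure (E n)), ∀ x ∈ T, z ∈ ball x.1 (r x) → v x z = u z := by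
      rw [ae_ball_iff hT]
      intro x _
      exact (ae_restrict_iff' measurableSet_ball).1 (hve x)
    filter_upwards [h1] with z hz
    by_cases hzR : z ∈ Reg u
    · have h2 : z ∈ ⋃ x ∈ T, ball (x : Reg u).1 (r x) := by
        rw [hTe]
        exact mem_iUnion.2 ⟨⟨z, hzR⟩, mem_ball_self (hr _)⟩
      obtain ⟨x, hxT, hzx⟩ := mem_iUnion₂.1 h2
      rw [hcl x z hzx]
      exact hz x hxT hzx
    · rw [hu']
      exact dif_neg hzR

end

end Pool.Agent.H21.RG
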