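import Pool.Agent.H90.RG.Targets

/-! Row G_SHE of the board reg (MP_2697e3_an): replacement of the map by a map which is equal to it almost
everywhere. -/

namespace Pool.Agent.H21.RG

open MeasureTheory Metric Set Filter Topology Pool.Agent.H87.SN Pool.Agent.H90.RG
open scoped ContDiff RealInnerProductSpace ENNReal

noncomputable section

theorem pf_SHE : T_SHE := by
  intro n m N A u u' G h he
  have he' : ∀ᵐ x ∂(volume : Measure (E n)), x ∈ ball (0 : E n) 2 → u' x = u x :=
    (ae_restrict_iff' measurableSet_ball).1 he
  refine ⟨⟨?_, h.w12.memLp_deriv, ?_⟩, ?_, ?_, h.stationary⟩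
  · refine h.w12.memLp.ae_eq ?_
    filter_upwards [he] with x hx
    exact hx.symm
  · intro φ hφ v
    rw [← h.w12.weak φ hφ v]
    refine integral_congr_ae ?_
    filter_upwards [he'] with x hx
    by_cases hb : x ∈ ball (0 : E n) 2
    · simp only [hx hb]
    · have h0 : fderiv ℝ φ x = 0 := fderiv_of_notMem_tsupport ℝ (fun ht => hb (hφ.2.2 ht))
      simp [h0]
  · filter_upwards [he, h.mem] with x hx hm
    rw [hx]
    exact hm
  · intro φ hφ
    rw [h.harmonic φ hφ]
    refine integral_congr_ae ?_
    filter_upwards [he'] with x hx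
    by_cases hb : x ∈ ball (0 : E n) 2
    · simp only [hx hb]
    · have h0 : φ x = 0 := by
        by_contra hc
        exact hb (hφ.2.2 (subset_tsupport _ hc))
      simp [h0]

end

end Pool.Agent.H21.RG
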